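import Pool.Agent.H959.MF.Geo

set_option autoImplicit false

/-!
# At most `2 ^ n` classes when the squares are translations

Let `Γ` act effectively, isometrically and totally discontinuously on Euclidean `n`-space, and
suppose that the square of every element acts as a translation, that is, the point group of `Γ` is
an elementary abelian `2`-group (of any rank, and for any lattice; cocompactness is not assumed).
Then `Γ` has at most `2 ^ n` conjugacy classes of maximal finite subgroups.

Proof.  The translations of `Γ` form a lattice `T` of rank at most `n` and of finite index in `Γ`.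
Commuting involutions of `T` have jointly injective common integer eigenfunctionals. For the first
one, `l`, the transfer extends a multiple of `l` to a homomorphism `V` to `ℤ` on the subgroup `P` of
index at most `2` which preserves `l`.  Every finite subgroup of `Γ` is conjugate into one of two
subgroups `M`, which contain the kernel of `V` with index at most `2`, and in which `T ∩ M` has a
smaller rank; this is an induction.
-/

namespace Pool.Agent.Results.MP_db1ca7_gt.ElementaryTwoHolonomy

universe u

/-- `F` is a maximal finite subgroup: it is finite, and no finite subgroup strictly contains it -/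
def MaximalFinite {Γ : Type u} [Group Γ] (F : Subgroup Γ) : Prop :=
  (F : Set Γ).Finite ∧ ∀ F' : Subgroup Γ, (F' : Set Γ).Finite → F ≤ F' → F' = F

/-- the set of all subgroups conjugate to `F` -/
def conjClass {Γ : Type u} [Group Γ] (F : Subgroup Γ) : Set (Subgroup Γ) :=
  {F' | ∃ g : Γ, F' = F.map (MulAut.conj g).toMonoidHom}

/-- the set of the conjugacy classes of maximal finite subgroups -/
def classes (Γ : Type u) [Group Γ] : Set (Set (Subgroup Γ)) :=
  {C | ∃ F : Subgroup Γ, MaximalFinite F ∧ C = conjClass F}

lemma map_conj {Γ : Type u} [Group Γ] (A : Subgroup Γ) (g h : Γ) :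
    (A.map (MulAut.conj g).toMonoidHom).map (MulAut.conj h).toMonoidHom =
      A.map (MulAut.conj (h * g)).toMonoidHom := by
  rw [Subgroup.map_map]
  congr 1
  ext x
  simp [mul_assoc]

lemma map_conj_one {Γ : Type u} [Group Γ] (A : Subgroup Γ) :
    A.map (MulAut.conj (1 : Γ)).toMonoidHom = A := by
  ext x
  simp [Subgroup.mem_map]

lemma conjClass_map {Γ : Type u} [Group Γ] (A : Subgroup Γ) (g : Γ) :
    conjClass (A.map (MulAut.conj g).toMonoidHom) = conjClass A := by
  ext F'
  constructor
  · rintro ⟨h, rfl⟩
    exact ⟨h * g, map_conj A g h⟩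
  · rintro ⟨h, rfl⟩
    exact ⟨h * g⁻¹, by rw [map_conj]; congr 2; group⟩

lemma classes_le {Γ : Type u} [Group Γ] {c : ℕ} (h : H959.MF.Cov Γ c) :
    (classes Γ).encard ≤ c := by
  obtain ⟨S, h1, h2, h3⟩ := h
  refine (Set.encard_le_encard (t := (fun A => conjClass A) '' S) ?_).trans
    ((Set.encard_image_le _ _).trans h1)
  rintro C ⟨F, hF, rfl⟩
  obtain ⟨A, hA, g, hg⟩ := h3 F hF.1
  refine ⟨A, hA, ?_⟩
  have h4 : F ≤ A.map (MulAut.conj g⁻¹).toMonoidHom := by
    intro x hx
    refine ⟨g * x * g⁻¹, hg x hx, ?_⟩
    simp only [MulEquiv.toMonoidHom_eq_coe, MonoidHom.coe_coe, MulAut.conj_apply]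
    group
  have h5 : ((A.map (MulAut.conj g⁻¹).toMonoidHom : Subgroup Γ) : Set Γ).Finite := by
    rw [Subgroup.coe_map]
    exact (h2 A hA).image _
  have h6 := hF.2 _ h5 h4
  simp only []
  rw [← h6, conjClass_map]

/-- Let `Γ` act on Euclidean `n`-space by isometries, effectively and totally discontinuously, and
let the square of every element act as a translation. Then `Γ` has at most `2 ^ n` conjugacy classes
of maximal finite subgroups. -/
theorem result (n : ℕ) (Γ : Type u) [Group Γ] [MulAction Γ (EuclideanSpace ℝ (Fin n))]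
    (h_iso : ∀ g : Γ, Isometry (fun x : EuclideanSpace ℝ (Fin n) => g • x))
    (h_eff : ∀ g : Γ, (∀ x : EuclideanSpace ℝ (Fin n), g • x = x) → g = 1)
    (h_disc : ∀ K : Set (EuclideanSpace ℝ (Fin n)), IsCompact K →
      {g : Γ | (((fun x => g • x) '' K) ∩ K).Nonempty}.Finite)
    (h_sq : ∀ g : Γ, ∃ v : EuclideanSpace ℝ (Fin n), ∀ x : EuclideanSpace ℝ (Fin n),
      g • (g • x) = x + v) :
    (classes Γ).encard ≤ 2 ^ n := by
  have h := H959.MF.geo (E := EuclideanSpace ℝ (Fin n)) (Γ := Γ) n (by simp) h_iso h_eff h_disc h_sq
  exact_mod_cast classes_le h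

end Pool.Agent.Results.MP_db1ca7_gt.ElementaryTwoHolonomy
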